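import Pool.Agent.TH522.UG.Mixed
import Pool.Agent.TH843.LR.Form

/-! Local reductions from 3-SAT to unique games (helper329). -/

set_option autoImplicit false

namespace Pool.Agent.Q329.LR

open Finset Pool.Agent.W888.GX Pool.Agent.TH700.UG
open Pool.Agent.TH522.UG (Mixed Dep core hier_mixed)
open Pool.Agent.H647R3.UG (sat)

section

variable {n D d : ℕ} {L : ((Fin n → ZMod 2) → ℝ) →ₗ[ℝ] ℝ} {V A : Type} [Fintype V]

/-- composition of a functional with a local encoding, as a solution of the mixed hierarchy -/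
theorem mixed_comp {k : ℕ} (hL : IsPseudoExpectation D L)
    (enc : (Fin n → ZMod 2) → V → A)
    (henc : ∀ v, ∃ S : Finset (Fin n), S.card ≤ d ∧ Reads (fun z => enc z v) S)
    (hD : (k + 2) * d ≤ D) :
    Mixed k (L.comp (LinearMap.funLeft ℝ ℝ enc)) := by
  classical
  choose S hS hR using henc
  have hread : ∀ (W : Finset V) (f : (V → A) → ℝ), Dep W f →
      Reads (fun z => f (enc z)) (W.biUnion S) := by
    intro W f hf x y hxy
    refine hf _ _ fun v hv => ?_
    exact hR v x y fun i hi => hxy i (mem_biUnion.2 ⟨v, hv, hi⟩)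
  have hcard : ∀ W : Finset V, (W.biUnion S).card ≤ W.card * d := by
    intro W
    exact card_biUnion_le.trans ((Finset.sum_le_card_nsmul W _ d fun v _ => hS v).trans
      (by rw [smul_eq_mul]))
  refine ⟨?_, fun W hW f hf hf0 => ?_, fun W hW g hg hg0 c => ?_⟩
  · rw [LinearMap.comp_apply]
    exact hL.1
  · have h1 := hL.2 (fun z => Real.sqrt (f (enc z)))
      (mem_low (S := W.biUnion S) ((hcard W).trans ((Nat.mul_le_mul_right d hW).trans hD))
      (hread W (fun x => Real.sqrt (f x)) fun x y h => congrArg Real.sqrt (hf x y h)))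
    have h2 : (fun z => (fun z => Real.sqrt (f (enc z))) z ^ 2) = fun z => f (enc z) := by
      funext z
      exact Real.sq_sqrt (hf0 _)
    rw [h2] at h1
    exact h1
  · have hmem : (fun z => ∑ v, Real.sqrt (g (enc z)) * c v (enc z v)) ∈
        LowDegree (Fin n) (ZMod 2) D := by
      have h0 : (fun z => ∑ v, Real.sqrt (g (enc z)) * c v (enc z v)) =
          ∑ v, fun z => Real.sqrt (g (enc z)) * c v (enc z v) := by
        funext z
        rw [Finset.sum_apply]
      rw [h0]
      refine Submodule.sum_mem _ fun w _ => ?_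
      refine mem_low (S := (insert w W).biUnion S) ?_ ?_
      · refine (hcard _).trans (le_trans (Nat.mul_le_mul_right d ?_) hD)
        have := card_insert_le w W
        omega
      · refine hread (insert w W) (fun x => Real.sqrt (g x) * c w (x w)) ?_
        intro x y h1
        show Real.sqrt (g x) * c w (x w) = Real.sqrt (g y) * c w (y w)
        rw [hg x y (fun i hi => h1 i (mem_insert_of_mem hi)), h1 w (mem_insert_self _ _)]
    have h1 := hL.2 _ hmem
    have h2 : (fun z => (fun z => ∑ v, Real.sqrt (g (enc z)) * c v (enc z v)) z ^ 2) =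
        fun z => g (enc z) * (∑ v, c v (enc z v)) ^ 2 := by
      funext z
      simp only []
      rw [← mul_sum, mul_pow, Real.sq_sqrt (hg0 _)]
    rw [h2] at h1
    exact h1

variable {I E : Type} [Fintype E] [DecidableEq A] {kk : ℕ}

/-- the value of the functional on the game -/
theorem value_ge (hL : IsPseudoExpectation D L) (F : I → Clause kk n)
    (hF : ∀ i, ∀ u : (Fin n → ZMod 2) → ℝ, (∀ x, (Satisfies x (F i) → u x = 0) ∧
      (¬ Satisfies x (F i) → u x = 1)) → L u = 0) (hd : d ≤ D) (ε : ℝ)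
    (s t : E → V) (π : E → Equiv.Perm A) (enc : (Fin n → ZMod 2) → V → A) (P : Type) [Fintype P]
    (T : P → Finset (Fin n)) (g : P → (Fin n → ZMod 2) → ℝ)
    (hg : ∀ p, (T p).card ≤ d ∧ Reads (g p) (T p) ∧ ∀ x, SatOn F (T p) x → 0 ≤ g p x)
    (hv : ∀ x, (violated s t π (enc x) : ℝ) = ε * Fintype.card E - ∑ p, g p x) :
    (1 - ε) * (Fintype.card E : ℝ) ≤
      ∑ e, (L.comp (LinearMap.funLeft ℝ ℝ enc)) (sat (s e) (t e) (π e)) := by
  classical
  have h1 : ∑ e, (L.comp (LinearMap.funLeft ℝ ℝ enc)) (sat (s e) (t e) (π e)) =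
      L (fun x => (1 - ε) * (Fintype.card E : ℝ) * 1 + ∑ p, g p x) := by
    rw [← map_sum, LinearMap.comp_apply]
    congr 1
    funext x
    rw [LinearMap.funLeft_apply, Finset.sum_apply]
    have h2 := hv x
    have h3 : ∑ e, sat (s e) (t e) (π e) (enc x) + (violated s t π (enc x) : ℝ) =
        Fintype.card E := by
      unfold violated
      rw [card_filter]
      push_cast
      rw [← sum_add_distrib]
      have h4 : ∀ e : E, sat (s e) (t e) (π e) (enc x) +
          (if π e (enc x (s e)) ≠ enc x (t e) then (1 : ℝ) else 0) = 1 := by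
        intro e
        unfold sat
        by_cases h : π e (enc x (s e)) = enc x (t e)
        · rw [if_pos h, if_neg (not_not.2 h)]
          norm_num
        · rw [if_neg h, if_pos h]
          norm_num
      rw [sum_congr rfl fun e _ => h4 e]
      simp
    linarith
  have h2 : (fun x => (1 - ε) * (Fintype.card E : ℝ) * 1 + ∑ p, g p x) =
      ((1 - ε) * (Fintype.card E : ℝ)) • (fun _ => (1 : ℝ)) + ∑ p, g p := by
    funext x
    rw [Pi.add_apply, Pi.smul_apply, smul_eq_mul, Finset.sum_apply]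
  rw [h1, h2, map_add, map_smul, hL.1, map_sum, smul_eq_mul, mul_one]
  have h3 : 0 ≤ ∑ p, L (g p) := sum_nonneg fun p _ =>
    pe_local hL F hF (T p) ((hg p).1.trans hd) (g p) (hg p).2.1 (hg p).2.2
  linarith

end

/-- the main theorem -/
theorem main : ∀ η : ℝ, 0 < η →
    ∃ M : ℕ, 1 ≤ M ∧ ∃ c : ℝ, 0 < c ∧ ∃ n₀ : ℕ, ∀ n : ℕ, n₀ ≤ n →
      ∃ (I : Type) (_ : Fintype I) (F : I → Clause 3 n),
        n ≤ Fintype.card I ∧ Fintype.card I ≤ M * n ∧
        (∀ z, (1 / 8 - η) * (Fintype.card I : ℝ) ≤ (falsified F z : ℝ)) ∧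
        ∀ (D : ℕ) (ε γ r : ℝ) (V A E : Type) [Fintype V] [Fintype A] [Fintype E] [DecidableEq A]
          (s t : E → V) (π : E → Equiv.Perm A), 1 ≤ D → 0 < ε → 0 < γ → γ < 1 → 0 < r → r ≤ 1 →
          2 ^ 30 * (ε * Real.log (2 / r)) ≤ r * γ ^ 2 →
          Represents F D ε s t π →
          (∀ x : V → A, ((univ.filter fun e => π e (x (s e)) = x (t e)).card : ℝ) <
            (1 - γ) * Fintype.card E) →
          c * n / (D * Real.log (2 / γ)) < (Fintype.card V : ℝ) ^ r := by
  intro η hη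
  obtain ⟨M, hM, c0, hc0, n0, hn0⟩ := Pool.Agent.TH843.LR.exists_formula_card η hη
  refine ⟨M, hM, c0 / 2 ^ 32, by positivity, n0, fun n hn => ?_⟩
  obtain ⟨I, hI, F, D0, L, hcard0, hcard, hfar, hD0, hL, hF⟩ := hn0 n hn
  refine ⟨I, hI, F, hcard0, hcard, hfar, ?_⟩
  intro D ε γ r V A E _ _ _ _ s t π hD hε hγ hγ1 hr hr1 hrε hR hno
  classical
  by_contra hcon
  push Not at hcon
  obtain ⟨enc, P, _, T, g, henc, hg, hv⟩ := hR
  have hDr : (1 : ℝ) ≤ D := by exact_mod_cast hD
  have hlog2 := Real.log_two_gt_d9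
  have hlogγ : Real.log 2 ≤ Real.log (2 / γ) := by
    refine Real.log_le_log (by norm_num) ?_
    rw [le_div_iff₀ hγ]
    linarith
  have hlogγ0 : 0 < Real.log (2 / γ) := by linarith
  -- the set of vertices is not empty
  have hV : 1 ≤ Fintype.card V := by
    by_contra hV
    have hV0 : Fintype.card V = 0 := by omega
    have hVe : IsEmpty V := Fintype.card_eq_zero_iff.1 hV0
    have hEe : IsEmpty E := ⟨fun e => hVe.false (s e)⟩
    have h1 := hno fun v => (hVe.false v).elim
    have h2 : Fintype.card E = 0 := Fintype.card_eq_zero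
    rw [h2] at h1
    simp at h1
  have hVr : (1 : ℝ) ≤ (Fintype.card V : ℝ) ^ r :=
    Real.one_le_rpow (by exact_mod_cast hV) hr.le
  obtain ⟨y, hy⟩ : ∃ y : ℝ, y = Real.log (2 / γ) * (Fintype.card V : ℝ) ^ r := ⟨_, rfl⟩
  have hy0 : 1 / 2 ≤ y := by
    rw [hy]
    nlinarith
  have hyD : y * D ≤ c0 / 2 ^ 32 * n := by
    rw [le_div_iff₀ (by positivity)] at hcon
    calc y * D = (Fintype.card V : ℝ) ^ r * (D * Real.log (2 / γ)) := by rw [hy]; ring
      _ ≤ _ := hcon
  obtain ⟨k, hk⟩ : ∃ k : ℕ, k = ⌈2 ^ 30 * y⌉₊ := ⟨_, rfl⟩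
  have hk1 : 2 ^ 30 * y ≤ k := by rw [hk]; exact Nat.le_ceil _
  have hk2 : (k : ℝ) < 2 ^ 30 * y + 1 := by
    rw [hk]; exact Nat.ceil_lt_add_one (by linarith)
  have hkD : (k + 2) * D ≤ D0 := by
    have h2 : (((k + 2) * D : ℕ) : ℝ) ≤ D0 := by
      push_cast
      have h3 : (k : ℝ) + 2 ≤ 2 ^ 31 * y := by linarith
      calc ((k : ℝ) + 2) * D ≤ 2 ^ 31 * y * D := mul_le_mul_of_nonneg_right h3 (by linarith)
        _ = 2 ^ 31 * (y * D) := by ring
        _ ≤ 2 ^ 31 * (c0 / 2 ^ 32 * n) := mul_le_mul_of_nonneg_left hyD (by norm_num)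
        _ = c0 * n / 2 := by ring
        _ ≤ c0 * n := by
            have : 0 ≤ c0 * n := by positivity
            linarith
        _ ≤ D0 := hD0
    exact_mod_cast h2
  have hmix := mixed_comp (k := k) hL enc henc hkD
  have hval := value_ge (d := D) hL F hF (by nlinarith) ε s t π enc P T g hg hv
  obtain ⟨x, hx⟩ := core (hier_mixed V A) s t π r γ ε hr hr1 hγ hγ1 hε
    (by norm_num at hrε ⊢; exact hrε) k (by norm_num at hk1 ⊢; rw [hy] at hk1; exact hk1) _
    hmix hval
  have := hno x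
  linarith

end Pool.Agent.Q329.LR
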